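import Mathlib
import Pool.Agent.X191.CC.Dim

/-!
# Coupling constants of Kadison–Kastler close II₁ factors

Problem MP_41729c_an, Q1.  There is a universal `δ > 0` such that any two II₁ factors `M`, `N`
acting on the same Hilbert space, whose Kadison–Kastler distance is less than `δ`, have the same
coupling constant, whatever its value in `(0, ∞]`.
-/

namespace Pool.Agent.Results.MP_41729c_an.CouplingConst

open scoped InnerProductSpace ENNReal
open Filter Topology

section Defs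

variable {H : Type} [NormedAddCommGroup H] [InnerProductSpace ℂ H] [CompleteSpace H]

/-- The type of elements of a (concrete) von Neumann algebra `M ⊆ B(H)`. -/
def El (M : VonNeumannAlgebra H) : Type := M.toStarSubalgebra

namespace El

variable {M : VonNeumannAlgebra H}

/-- The action of an element of `M ⊆ B(H)` on the vectors of `H`. -/
def app (a : El M) : H → H := a.1

instance : CoeFun (El M) (fun _ => H → H) := ⟨app⟩
noncomputable instance : Zero (El M) := inferInstanceAs (Zero M.toStarSubalgebra)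
noncomputable instance : One (El M) := inferInstanceAs (One M.toStarSubalgebra)
noncomputable instance : Mul (El M) := inferInstanceAs (Mul M.toStarSubalgebra)
noncomputable instance : SMul ℂ (El M) := inferInstanceAs (SMul ℂ M.toStarSubalgebra)
noncomputable instance : Star (El M) := inferInstanceAs (Star M.toStarSubalgebra)

end El

/-- The closed unit ball of `M`, a set of bounded operators on `H`. -/
def unitBall (M : VonNeumannAlgebra H) : Set (H →L[ℂ] H) := {x | x ∈ M ∧ ‖x‖ ≤ 1}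

/-- The Kadison–Kastler distance: the Hausdorff distance, in operator norm, of the unit balls. -/
noncomputable def kkDist (M N : VonNeumannAlgebra H) : ℝ :=
  Metric.hausdorffDist (unitBall M) (unitBall N)

/-- Square summable sequences of vectors. -/
def SqSum (η : ℕ → H) : Prop := Summable fun n => ‖η n‖ ^ 2

/-- The functional `a ↦ ∑ₙ ⟨ηₙ, a ηₙ⟩`. -/
noncomputable def vecFun (η : ℕ → H) (a : H → H) : ℂ := ∑' n, ⟪η n, a (η n)⟫_ℂ

/-- `τ` is a faithful normal tracial state of `M`. Normality: `τ a = ∑ₙ ⟨ηₙ, a ηₙ⟩` for some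
square summable sequence of vectors (so that `τ` is a `σ`-weakly continuous positive linear
functional). -/
structure IsTrace (M : VonNeumannAlgebra H) (τ : El M → ℂ) : Prop where
  normal : ∃ η : ℕ → H, SqSum η ∧ ∀ a : El M, τ a = vecFun η a
  one : τ 1 = 1
  tracial : ∀ a b, τ (a * b) = τ (b * a)
  faithful : ∀ a, τ (star a * a) = 0 → a = 0

/-- `M` is a II₁ factor: an infinite dimensional von Neumann algebra with trivial center and
with a faithful normal tracial state. -/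
structure IsII1Factor (M : VonNeumannAlgebra H) : Prop where
  center : ∀ z : El M, (∀ a, z * a = a * z) → ∃ c : ℂ, z = c • 1
  infinite : ¬ FiniteDimensional ℂ M.toStarSubalgebra
  trace : ∃ τ : El M → ℂ, IsTrace M τ

/-- A frame: vectors `ξ i` of `H` and projections `p i` of `M` such that the closed submodules
generated by the `ξ i` are mutually orthogonal, and the one generated by `ξ i` is isomorphic to
the left `M`-module `L²(M, τ) p i`, through `a (ξ i) ↔ a p i`. -/
structure IsFrame (M : VonNeumannAlgebra H) (τ : El M → ℂ) {ι : Type} (ξ : ι → H)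
    (p : ι → El M) : Prop where
  proj : ∀ i, star (p i) = p i ∧ p i * p i = p i
  iso : ∀ i, ∀ a b : El M, ⟪a (ξ i), b (ξ i)⟫_ℂ = τ (star a * b * p i)
  orth : ∀ i j, i ≠ j → ∀ a b : El M, ⟪a (ξ i), b (ξ j)⟫_ℂ = 0

/-- The vectors `ξ i` generate the left `M`-module `H`. -/
def IsTotal (M : VonNeumannAlgebra H) {ι : Type} (ξ : ι → H) : Prop :=
  ∀ v : H, (∀ i, ∀ a : El M, ⟪a (ξ i), v⟫_ℂ = 0) → v = 0

/-- The Murray–von Neumann dimension (coupling constant) `dim_M(H)`: the supremum of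
`∑ i, τ (p i)` over all finite orthogonal families of submodules of `H` isomorphic to
`L²(M, τ) p i`. -/
noncomputable def mvDim (M : VonNeumannAlgebra H) (τ : El M → ℂ) : ℝ≥0∞ :=
  ⨆ (n : ℕ) (ξ : Fin n → H) (p : Fin n → El M) (_ : IsFrame M τ ξ p),
    ∑ i, ENNReal.ofReal (τ (p i)).re

end Defs

section Proofs

open Pool.Agent.X191.CC
open H759R2.Kad

variable {H : Type} [NormedAddCommGroup H] [InnerProductSpace ℂ H] [CompleteSpace H]

/-- The element of `M` given by an operator. -/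
def toEl {M : VonNeumannAlgebra H} (x : H →L[ℂ] H) (hx : x ∈ M) : El M := ⟨x, hx⟩

theorem IsTrace.trV {M : VonNeumannAlgebra H} {τ : El M → ℂ} (h : IsTrace M τ) :
    ∃ ζ : ℕ → H, TrV M ζ ∧ ∀ a : El M, τ a = tv ζ a.1 := by
  obtain ⟨ζ, hζ, hτ⟩ := h.normal
  have hτ' : ∀ a : El M, τ a = tv ζ a.1 := hτ
  refine ⟨ζ, ⟨hζ, ?_, ?_, ?_⟩, hτ'⟩
  · have := h.one
    rw [hτ'] at this
    exact this
  · intro x hx y hy
    have := h.tracial (toEl x hx) (toEl y hy)
    rw [hτ', hτ'] at this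
    exact this
  · intro x hx h0
    have := h.faithful (toEl x hx) (by rw [hτ']; exact h0)
    exact congrArg Subtype.val this

theorem isFrame_iff {M : VonNeumannAlgebra H} {τ : El M → ℂ} {ζ : ℕ → H}
    (hτ : ∀ a : El M, τ a = tv ζ a.1) {ι : Type} [DecidableEq ι] (ξ : ι → H) (p : ι → El M) :
    IsFrame M τ ξ p ↔ Frame M ζ ξ (fun i => (p i).1) := by
  constructor
  · intro h
    refine ⟨fun i => (p i).2, fun i => ⟨congrArg Subtype.val (h.proj i).1,
      congrArg Subtype.val (h.proj i).2⟩, fun i j x hx => ?_⟩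
    by_cases hij : i = j
    · subst hij
      rw [if_pos rfl]
      have := h.iso i 1 (toEl x hx)
      rw [hτ] at this
      have e : (star (1 : El M) * toEl x hx * p i).1 = x * (p i).1 := by
        show star (1 : H →L[ℂ] H) * x * (p i).1 = _
        rw [star_one, one_mul]
      rw [e] at this
      exact this
    · rw [if_neg hij]
      exact h.orth i j hij 1 (toEl x hx)
  · intro h
    refine ⟨fun i => ⟨Subtype.ext (h.pr i).1, Subtype.ext (h.pr i).2⟩, fun i a b => ?_,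
      fun i j hij a b => ?_⟩
    · rw [hτ]
      have e : ⟪a (ξ i), b (ξ i)⟫_ℂ = ⟪ξ i, (star a.1 * b.1) (ξ i)⟫_ℂ := by
        show ⟪a.1 (ξ i), b.1 (ξ i)⟫_ℂ = _
        rw [inner_star]; rfl
      rw [e, h.inner i i _ (mul_mem (star_mem a.2) b.2), if_pos rfl]
      rfl
    · have e : ⟪a (ξ i), b (ξ j)⟫_ℂ = ⟪ξ i, (star a.1 * b.1) (ξ j)⟫_ℂ := by
        show ⟪a.1 (ξ i), b.1 (ξ j)⟫_ℂ = _
        rw [inner_star]; rfl
      rw [e, h.inner i j _ (mul_mem (star_mem a.2) b.2), if_neg hij]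

theorem le_mvDim {M : VonNeumannAlgebra H} {τ : El M → ℂ} {ζ : ℕ → H}
    (hτ : ∀ a : El M, τ a = tv ζ a.1) {n : ℕ} {ξ : Fin n → H} {p : Fin n → (H →L[ℂ] H)}
    (h : Frame M ζ ξ p) : ∑ i, ENNReal.ofReal (rtr ζ (p i)) ≤ mvDim M τ := by
  have h1 : IsFrame M τ ξ (fun i => toEl (p i) (h.mem i)) := (isFrame_iff hτ _ _).2 h
  have h2 : ∑ i, ENNReal.ofReal (rtr ζ (p i)) =
      ∑ i, ENNReal.ofReal (τ (toEl (p i) (h.mem i))).re :=
    Finset.sum_congr rfl fun i _ => by rw [hτ]; rfl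
  rw [h2]
  unfold mvDim
  exact le_iSup_of_le n (le_iSup_of_le ξ (le_iSup_of_le (fun i => toEl (p i) (h.mem i))
    (le_iSup_of_le h1 le_rfl)))

theorem mvDim_le {M : VonNeumannAlgebra H} {τ : El M → ℂ} {ζ : ℕ → H}
    (hτ : ∀ a : El M, τ a = tv ζ a.1) {C : ℝ≥0∞}
    (h : ∀ (n : ℕ) (ξ : Fin n → H) (p : Fin n → (H →L[ℂ] H)), Frame M ζ ξ p →
      ∑ i, ENNReal.ofReal (rtr ζ (p i)) ≤ C) : mvDim M τ ≤ C := by
  unfold mvDim
  refine iSup_le fun n => iSup_le fun ξ => iSup_le fun p => iSup_le fun hf => ?_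
  have h1 := h n ξ _ ((isFrame_iff hτ ξ p).1 hf)
  refine le_trans (le_of_eq ?_) h1
  exact Finset.sum_congr rfl fun i _ => by rw [hτ]; rfl

/-- Total frames compute the dimension. -/
theorem mvDim_eq {M : VonNeumannAlgebra H} {τ : El M → ℂ} (hM : IsTrace M τ) {ι : Type}
    {ξ : ι → H} {p : ι → El M} (hf : IsFrame M τ ξ p) (ht : IsTotal M ξ) :
    mvDim M τ = ∑' i, ENNReal.ofReal (τ (p i)).re := by
  classical
  obtain ⟨ζ, hζ, hτ⟩ := hM.trV
  have hf' := (isFrame_iff hτ ξ p).1 hf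
  have he : ∀ i, (τ (p i)).re = rtr ζ (p i).1 := fun i => by rw [hτ]; rfl
  refine le_antisymm ?_ ?_
  · refine mvDim_le hτ fun n η q hg => ?_
    refine (hf'.sum_le hζ (fun v hv => ht v fun i a => hv i a.1 a.2) hg).trans (le_of_eq ?_)
    simp only [he]
  · rw [ENNReal.tsum_eq_iSup_sum]
    refine iSup_le fun F => ?_
    let e := F.equivFin
    have hg : Frame M ζ (fun j => ξ (e.symm j).1) (fun j => (p (e.symm j).1).1) := by
      refine ⟨fun j => (p _).2, fun j => hf'.pr _, fun i j x hx => ?_⟩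
      rw [hf'.inner _ _ x hx]
      by_cases h : i = j
      · subst h; rw [if_pos rfl, if_pos rfl]
      · rw [if_neg h, if_neg fun h' => h (e.symm.injective (Subtype.ext h'))]
    refine le_trans (le_of_eq ?_) (le_mvDim hτ hg)
    have h1 := Equiv.sum_comp e.symm (fun i : F => ENNReal.ofReal (rtr ζ (p i.1).1))
    rw [h1]
    simp only [he]
    exact (Finset.sum_coe_sort F fun i => ENNReal.ofReal (rtr ζ (p i).1)).symm

theorem IsII1Factor.iiOne {M : VonNeumannAlgebra H} (h : IsII1Factor M) {ζ : ℕ → H}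
    (hζ : TrV M ζ) : IIOne M ζ := by
  refine ⟨hζ, ?_, h.infinite⟩
  intro z hz hc
  obtain ⟨c, hc'⟩ := h.center (toEl z hz) fun a => Subtype.ext (hc a.1 a.2)
  exact ⟨c, congrArg Subtype.val hc'⟩

theorem kkDist_comm (M N : VonNeumannAlgebra H) : kkDist M N = kkDist N M :=
  Metric.hausdorffDist_comm

theorem nearIn_of_kkDist {M N : VonNeumannAlgebra H} {δ : ℝ} (h : kkDist M N < δ) :
    NearIn M N δ := by
  intro x hx hx1
  have hbd : ∀ M : VonNeumannAlgebra H, Bornology.IsBounded (unitBall M) := fun M =>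
    isBounded_iff_forall_norm_le.2 ⟨1, fun x hx => hx.2⟩
  have hne : ∀ M : VonNeumannAlgebra H, (unitBall M).Nonempty := fun M =>
    ⟨0, zero_mem _, by simp⟩
  obtain ⟨y, hy, hxy⟩ := Metric.exists_dist_lt_of_hausdorffDist_lt (show x ∈ unitBall M from
    ⟨hx, hx1⟩) h (Metric.hausdorffEDist_ne_top_of_nonempty_of_bounded (hne M) (hne N) (hbd M)
      (hbd N))
  exact ⟨y, hy.1, hy.2, by rw [← dist_eq_norm]; exact hxy.le⟩

/-- Transfer to the commutants. -/
theorem near_commutant {K : ℝ} (hK : ∀ (H : Type) [NormedAddCommGroup H]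
    [InnerProductSpace ℂ H] [CompleteSpace H] (M : VonNeumannAlgebra H) (x : H →L[ℂ] H) (ε : ℝ),
    0 ≤ ε → (∀ a ∈ M, ‖x * a - a * x‖ ≤ ε * ‖a‖) → ∃ y ∈ M.commutant, ‖x - y‖ ≤ K * ε)
    {M N : VonNeumannAlgebra H} {δ : ℝ} (hNM : NearIn N M δ) :
    ∀ x ∈ M.commutant, ‖x‖ ≤ 1 → ∃ y ∈ N.commutant, ‖y - x‖ ≤ K * (2 * δ) := by
  intro x hx hx1
  have hδ0 : 0 ≤ δ := by
    obtain ⟨y, _, _, hy⟩ := hNM 0 (zero_mem _) (by simp)
    exact (norm_nonneg _).trans hy
  obtain ⟨y, hy, hxy⟩ := hK H N x (2 * δ) (by positivity) (by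
    intro a ha
    by_cases h0 : ‖a‖ = 0
    · rw [norm_eq_zero.1 h0]; simp
    · have hc0 : (‖a‖ : ℂ) ≠ 0 := by exact_mod_cast h0
      obtain ⟨b, hb, _, hab⟩ := hNM ((‖a‖ : ℂ)⁻¹ • a) (smul_mem' _ ha) (by
        rw [norm_smul, norm_inv, Complex.norm_real, norm_norm, inv_mul_cancel₀ h0])
      have hbx : x * b = b * x := commute_of_mem hb hx
      have e : x * a - a * x = (‖a‖ : ℂ) • (x * ((‖a‖ : ℂ)⁻¹ • a - b) -
          ((‖a‖ : ℂ)⁻¹ • a - b) * x) := by
        rw [mul_sub, sub_mul, hbx, mul_smul_comm, smul_mul_assoc, sub_sub_sub_cancel_right,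
          ← smul_sub, smul_smul, mul_inv_cancel₀ hc0, one_smul]
      rw [e, norm_smul, Complex.norm_real, norm_norm, mul_comm]
      refine mul_le_mul_of_nonneg_right ?_ (norm_nonneg _)
      have h1 : ‖x * ((‖a‖ : ℂ)⁻¹ • a - b)‖ ≤ 1 * δ :=
        (norm_mul_le _ _).trans (mul_le_mul hx1 hab (norm_nonneg _) zero_le_one)
      have h2 : ‖((‖a‖ : ℂ)⁻¹ • a - b) * x‖ ≤ δ * 1 :=
        (norm_mul_le _ _).trans (mul_le_mul hab hx1 (norm_nonneg _) hδ0)
      refine (norm_sub_le _ _).trans ?_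
      linarith)
  exact ⟨y, hy, by rw [norm_sub_rev]; exact hxy⟩

/-- One inequality. -/
theorem mvDim_mono {M N : VonNeumannAlgebra H} {τM : El M → ℂ} {τN : El N → ℂ}
    (hM : IsII1Factor M) (hτM : IsTrace M τM) (hτN : IsTrace N τN)
    (hMN : NearIn M N (1 / 16000)) (hNM : NearIn N M (1 / 16000))
    (h2 : ∀ x ∈ M.commutant, ‖x‖ ≤ 1 → ∃ y ∈ N.commutant, ‖y - x‖ ≤ 1 / 16000) :
    mvDim M τM ≤ mvDim N τN := by
  obtain ⟨ζ, hζ, hτ⟩ := hτM.trV
  obtain ⟨ζ', hζ', hτ'⟩ := hτN.trV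
  have hM1 := hM.iiOne hζ
  refine mvDim_le hτ fun n ξ p hf => ?_
  have hnn : ∀ i, 0 ≤ rtr ζ (p i) := fun i => tr_pr_nonneg (hf.pr i)
  rw [← ENNReal.ofReal_sum_of_nonneg fun i _ => hnn i]
  refine le_of_forall_lt fun c hc => ?_
  obtain ⟨s, hs0, rfl⟩ : ∃ s : ℝ, 0 ≤ s ∧ c = ENNReal.ofReal s := by
    have hc' : c ≠ ⊤ := hc.ne_top
    exact ⟨c.toReal, ENNReal.toReal_nonneg, (ENNReal.ofReal_toReal hc').symm⟩
  have hs : s < ∑ i, rtr ζ (p i) := by
    have := ENNReal.ofReal_lt_ofReal_iff_of_nonneg hs0 |>.1 hc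
    exact this
  obtain ⟨n', ξ', e, hf', hn'⟩ := hf.refine' hM1 hs
  rcases Nat.eq_zero_or_pos n' with h0 | h0
  · subst h0
    simp only [Nat.cast_zero, zero_mul] at hn'
    linarith
  · haveI : Nonempty (Fin n') := ⟨⟨0, h0⟩⟩
    obtain ⟨η, e', hg, he⟩ := frame_transfer hM1 hζ' le_rfl hMN hNM h2 hf'
    refine lt_of_lt_of_le ?_ (le_mvDim hτ' hg)
    rw [Finset.sum_const, Finset.card_univ, Fintype.card_fin, he, nsmul_eq_mul,
      ← ENNReal.ofReal_natCast, ← ENNReal.ofReal_mul (by positivity)]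
    exact (ENNReal.ofReal_lt_ofReal_iff_of_nonneg hs0).2 hn'

end Proofs

/-- **Coupling constants of close II₁ factors.** First part: the dimension `mvDim M τ` is
`∑ i, τ (p i)` for every orthogonal decomposition of the left `M`-module `H` into submodules
isomorphic to `L²(M, τ) p i`.  Second part (answer to Q1, yes): there is a universal `δ > 0` such
that any two II₁ factors `M`, `N` on the same Hilbert space with Kadison–Kastler distance less than
`δ` have the same dimension. -/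
theorem result :
    (∀ (H : Type) [NormedAddCommGroup H] [InnerProductSpace ℂ H] [CompleteSpace H]
      (M : VonNeumannAlgebra H) (τ : El M → ℂ), IsTrace M τ →
      ∀ (ι : Type) (ξ : ι → H) (p : ι → El M), IsFrame M τ ξ p → IsTotal M ξ →
        mvDim M τ = ∑' i, ENNReal.ofReal (τ (p i)).re) ∧
    ∃ δ : ℝ, 0 < δ ∧ ∀ (H : Type) [NormedAddCommGroup H] [InnerProductSpace ℂ H]
      [CompleteSpace H] (M N : VonNeumannAlgebra H) (τM : El M → ℂ) (τN : El N → ℂ),
      IsII1Factor M → IsII1Factor N → IsTrace M τM → IsTrace N τN → kkDist M N < δ →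
        mvDim M τM = mvDim N τN := by
  refine ⟨fun H _ _ _ M τ hτ ι ξ p hf ht => mvDim_eq hτ hf ht, ?_⟩
  obtain ⟨K, hK0, hK⟩ := Pool.Agent.X191.CC.univ_dist
  refine ⟨1 / (16000 * (2 * K + 1)), by positivity, ?_⟩
  intro H _ _ _ M N τM τN hM hN hτM hτN hd
  set δ : ℝ := 1 / (16000 * (2 * K + 1)) with hδ
  have hδ1 : δ ≤ 1 / 16000 := by
    rw [hδ]
    apply one_div_le_one_div_of_le (by norm_num)
    nlinarith
  have hδ2 : K * (2 * δ) ≤ 1 / 16000 := by
    have h1 : K * (2 * δ) = (2 * K / (2 * K + 1)) * (1 / 16000) := by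
      rw [hδ]; field_simp
    have h2 : 2 * K / (2 * K + 1) ≤ 1 := by
      rw [div_le_one (by positivity)]; linarith
    rw [h1]
    linarith
  have hMN := nearIn_of_kkDist hd
  have hNM := nearIn_of_kkDist (by rw [kkDist_comm]; exact hd : kkDist N M < δ)
  have mono : ∀ {M N : VonNeumannAlgebra H}, Pool.Agent.X191.CC.NearIn M N δ →
      Pool.Agent.X191.CC.NearIn M N (1 / 16000) := fun h x hx hx1 => by
    obtain ⟨y, hy, hy1, hxy⟩ := h x hx hx1
    exact ⟨y, hy, hy1, hxy.trans hδ1⟩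
  have hc1 := near_commutant hK hNM
  have hc2 := near_commutant hK hMN
  refine le_antisymm ?_ ?_
  · refine mvDim_mono hM hτM hτN (mono hMN) (mono hNM) fun x hx hx1 => ?_
    obtain ⟨y, hy, hxy⟩ := hc1 x hx hx1
    exact ⟨y, hy, hxy.trans hδ2⟩
  · refine mvDim_mono hN hτN hτM (mono hNM) (mono hMN) fun x hx hx1 => ?_
    obtain ⟨y, hy, hxy⟩ := hc2 x hx hx1
    exact ⟨y, hy, hxy.trans hδ2⟩

end Pool.Agent.Results.MP_41729c_an.CouplingConst
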